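import Pool.Agent.Helper10.RC.Props

/-!
# MP_b55b7c_an: check that the condition on the quasitraces is not vacuous
-/

open scoped ENNReal NNReal InnerProductSpace ComplexOrder
open Filter Topology

attribute [-instance] CStarMatrix.instAlgebra CStarMatrix.instModule CStarMatrix.instSMul
  CStarMatrix.instMulAction CStarMatrix.instDistribMulAction

noncomputable section
namespace Pool.Agent.Helper14.RC3
open RC

/-- Positive matrices over the complex numbers are positive semidefinite. -/
theorem pos_of {ι : Type} [Fintype ι] [DecidableEq ι] {a : CStarMatrix ι ι ℂ} (h : 0 ≤ a) :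
    (CStarMatrix.ofMatrix.symm a).PosSemidef := by
  obtain ⟨b, hb⟩ := CStarAlgebra.nonneg_iff_eq_star_mul_self.1 h
  have : CStarMatrix.ofMatrix.symm a =
      (CStarMatrix.ofMatrix.symm b).conjTranspose * (CStarMatrix.ofMatrix.symm b) := by
    rw [hb]
    rfl
  rw [this]
  exact Matrix.posSemidef_conjTranspose_mul_self _

theorem nonneg_of {ι : Type} [Fintype ι] [DecidableEq ι] (b : CStarMatrix ι ι ℂ) :
    0 ≤ b.conjTranspose * b :=
  CStarAlgebra.nonneg_iff_eq_star_mul_self.2 ⟨b, rfl⟩

/-- The matrix unit `e_ii`, multiplied by `c`. -/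
def E {ι : Type} [DecidableEq ι] (i : ι) (c : ℝ) : CStarMatrix ι ι ℂ :=
  CStarMatrix.ofMatrix (Matrix.diagonal (Pi.single i (c : ℂ)))

/-- Diagonal matrix. -/
def D {ι : Type} [DecidableEq ι] (l : ι → ℝ) : CStarMatrix ι ι ℂ :=
  CStarMatrix.ofMatrix (Matrix.diagonal fun i => (l i : ℂ))

theorem D_mul {ι : Type} [Fintype ι] [DecidableEq ι] (l m : ι → ℝ) :
    D l * D m = D (fun i => l i * m i) := by
  show (Matrix.diagonal fun i => (l i : ℂ)) * (Matrix.diagonal fun i => (m i : ℂ)) =
    Matrix.diagonal fun i => ((l i * m i : ℝ) : ℂ)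
  rw [Matrix.diagonal_mul_diagonal]
  push_cast
  rfl

theorem D_add {ι : Type} [Fintype ι] [DecidableEq ι] (l m : ι → ℝ) :
    D l + D m = D (fun i => l i + m i) := by
  show (Matrix.diagonal fun i => (l i : ℂ)) + (Matrix.diagonal fun i => (m i : ℂ)) =
    Matrix.diagonal fun i => ((l i + m i : ℝ) : ℂ)
  rw [Matrix.diagonal_add]
  push_cast
  rfl

theorem D_star {ι : Type} [Fintype ι] [DecidableEq ι] (l : ι → ℝ) :
    (D l).conjTranspose = D l := by
  show (Matrix.diagonal fun i => (l i : ℂ)).conjTranspose = Matrix.diagonal fun i => (l i : ℂ)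
  rw [Matrix.diagonal_conjTranspose]
  congr 1
  funext i
  simp

theorem D_nonneg {ι : Type} [Fintype ι] [DecidableEq ι] {l : ι → ℝ} (h : ∀ i, 0 ≤ l i) :
    0 ≤ D l := by
  have e : D l = (D fun i => Real.sqrt (l i)).conjTranspose * D fun i => Real.sqrt (l i) := by
    rw [D_star, D_mul]
    congr 1
    funext i
    rw [Real.mul_self_sqrt (h i)]
  rw [e]
  exact nonneg_of _

theorem tau_unit (ω : QTrace ℂ) {ι : Type} [Fintype ι] [DecidableEq ι] (i : ι) :
    ω.τ ι (D (Pi.single i 1)) = 1 := by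
  have h := ω.trace ι Unit (CStarMatrix.ofMatrix fun j _ => if j = i then 1 else 0)
  have e1 : (CStarMatrix.ofMatrix fun j (_ : Unit) => if j = i then (1 : ℂ) else 0) *
      (CStarMatrix.ofMatrix fun j (_ : Unit) => if j = i then (1 : ℂ) else 0).conjTranspose =
      D (Pi.single i 1) := by
    ext j k
    show (∑ u : Unit, (if j = i then (1 : ℂ) else 0) * star (if k = i then (1 : ℂ) else 0)) =
      Matrix.diagonal (fun i' => (((Pi.single i (1 : ℝ) : ι → ℝ) i' : ℝ) : ℂ)) j k
    by_cases hj : j = i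
    · by_cases hk : k = i
      · subst hj
        subst hk
        simp
      · subst hj
        rw [Matrix.diagonal_apply_ne _ (Ne.symm hk)]
        simp [hk]
    · by_cases hjk : j = k
      · subst hjk
        simp [hj]
      · rw [Matrix.diagonal_apply_ne _ hjk]
        simp [hj]
  have e2 : (CStarMatrix.ofMatrix fun j (_ : Unit) => if j = i then (1 : ℂ) else 0).conjTranspose *
      (CStarMatrix.ofMatrix fun j (_ : Unit) => if j = i then (1 : ℂ) else 0) =
      (1 : CStarMatrix Unit Unit ℂ) := by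
    ext j k
    show (∑ u : ι, star (if u = i then (1 : ℂ) else 0) * (if u = i then (1 : ℂ) else 0)) = 1
    simp
  rw [e1, e2, ω.one] at h
  exact h

theorem smul_D {ι : Type} [Fintype ι] [DecidableEq ι] (c : ℝ) (l : ι → ℝ) :
    c • D l = D (fun i => c * l i) := by
  ext j k
  show c • (Matrix.diagonal (fun i => (l i : ℂ)) j k) =
    Matrix.diagonal (fun i => ((c * l i : ℝ) : ℂ)) j k
  by_cases h : j = k
  · subst h
    simp
  · rw [Matrix.diagonal_apply_ne _ h, Matrix.diagonal_apply_ne _ h, smul_zero]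

theorem tau_zero (ω : QTrace ℂ) {ι : Type} [Fintype ι] [DecidableEq ι] :
    ω.τ ι (D fun _ => 0) = 0 := by
  have h := ω.smul ι 0 (D fun _ => 0) le_rfl (D_nonneg fun _ => le_rfl)
  rw [smul_D] at h
  simpa using h

theorem tau_D (ω : QTrace ℂ) {ι : Type} [Fintype ι] [DecidableEq ι] {l : ι → ℝ}
    (h : ∀ i, 0 ≤ l i) : ω.τ ι (D l) = ∑ i, l i := by
  have key : ∀ s : Finset ι, ω.τ ι (D fun i => if i ∈ s then l i else 0) = ∑ i ∈ s, l i := by
    intro s
    induction s using Finset.induction_on with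
    | empty => simpa using tau_zero ω
    | insert i s hi ih =>
      have e : (D fun j => if j ∈ insert i s then l j else 0) =
          l i • D (Pi.single i 1) + D (fun j => if j ∈ s then l j else 0) := by
        rw [smul_D, D_add]
        congr 1
        funext j
        by_cases hj : j = i
        · subst hj
          simp [hi]
        · simp [hj]
      have hs : ∀ j, 0 ≤ (Pi.single i (1 : ℝ) : ι → ℝ) j := by
        intro j
        by_cases hj : j = i
        · subst hj
          simp
        · simp [hj]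
      rw [e, ω.add, ω.smul ι _ _ (h i) (D_nonneg hs), tau_unit, ih, Finset.sum_insert hi, mul_one]
      · rw [smul_D]
        exact D_nonneg fun j => mul_nonneg (h i) (hs j)
      · refine D_nonneg fun j => ?_
        split_ifs
        · exact h j
        · exact le_rfl
      · rw [smul_D, D_mul, D_mul]
        congr 1
        funext j
        ring
  have := key Finset.univ
  simpa using this

/-- **Every quasitrace on `ℂ` is the trace.** -/
theorem allTr_complex (ω : QTrace ℂ) : ∃ ψ : TState ℂ, ∀ (ι : Type) [Fintype ι] [DecidableEq ι]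
    (a : CStarMatrix ι ι ℂ), 0 ≤ a → ω.τ ι a = ∑ i, (ψ.φ (a i i)).re := by
  refine ⟨⟨LinearMap.id, fun a ha => ha, fun a b => by simp [mul_comm], rfl⟩, ?_⟩
  intro ι _ _ a ha
  have hp := pos_of ha
  have hH := hp.isHermitian
  obtain ⟨A, hA⟩ : ∃ A : Matrix ι ι ℂ, A = CStarMatrix.ofMatrix.symm a := ⟨_, rfl⟩
  rw [← hA] at hp hH
  obtain ⟨U, l, hUU, hA2, hl⟩ : ∃ (U : Matrix ι ι ℂ) (l : ι → ℝ), U.conjTranspose * U = 1 ∧
      A = U * (Matrix.diagonal fun i => ((l i : ℝ) : ℂ)) * U.conjTranspose ∧ ∀ i, 0 ≤ l i := by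
    refine ⟨(hH.eigenvectorUnitary : Matrix ι ι ℂ), hH.eigenvalues,
      Matrix.UnitaryGroup.star_mul_self _, ?_, hp.eigenvalues_nonneg⟩
    have hspec := hH.spectral_theorem
    simp only [Unitary.conjStarAlgAut_apply, Function.comp_def] at hspec
    exact hspec
  have hsq : (Matrix.diagonal fun i => ((Real.sqrt (l i) : ℝ) : ℂ)) *
      (Matrix.diagonal fun i => ((Real.sqrt (l i) : ℝ) : ℂ)) =
      Matrix.diagonal fun i => ((l i : ℝ) : ℂ) := by
    rw [Matrix.diagonal_mul_diagonal]
    congr 1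
    funext i
    rw [← Complex.ofReal_mul, Real.mul_self_sqrt (hl i)]
  have hds : (Matrix.diagonal fun i => ((Real.sqrt (l i) : ℝ) : ℂ)).conjTranspose =
      Matrix.diagonal fun i => ((Real.sqrt (l i) : ℝ) : ℂ) := by
    rw [Matrix.diagonal_conjTranspose]
    congr 1
    funext i
    simp
  obtain ⟨X, hX⟩ : ∃ X : Matrix ι ι ℂ,
    X = U * (Matrix.diagonal fun i => ((Real.sqrt (l i) : ℝ) : ℂ)) := ⟨_, rfl⟩
  have h1 : X * X.conjTranspose = A := by
    rw [hX, Matrix.conjTranspose_mul, hds, hA2, Matrix.mul_assoc,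
      ← Matrix.mul_assoc _ _ U.conjTranspose, hsq, ← Matrix.mul_assoc]
  have h2 : X.conjTranspose * X = Matrix.diagonal fun i => ((l i : ℝ) : ℂ) := by
    rw [hX, Matrix.conjTranspose_mul, hds, Matrix.mul_assoc, ← Matrix.mul_assoc U.conjTranspose,
      hUU, Matrix.one_mul, hsq]
  have h3 := ω.trace ι ι (CStarMatrix.ofMatrix X)
  have h4 : CStarMatrix.ofMatrix X * (CStarMatrix.ofMatrix X).conjTranspose = a := by
    show X * X.conjTranspose = CStarMatrix.ofMatrix.symm a
    rw [h1, hA]
  have h5 : (CStarMatrix.ofMatrix X).conjTranspose * CStarMatrix.ofMatrix X = D l := h2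
  rw [h4, h5, tau_D ω hl] at h3
  rw [h3]
  have h6 : A.trace = ∑ i, ((l i : ℝ) : ℂ) := by
    rw [← h1, Matrix.trace_mul_comm, h2, Matrix.trace_diagonal]
  have h7 : (∑ i, l i) = (A.trace).re := by
    rw [h6, Complex.re_sum]
    simp
  rw [h7, Matrix.trace, Complex.re_sum]
  rw [hA]
  rfl

/-- The complex numbers have a quasitrace. -/
def canonical : QTrace ℂ where
  τ ι _ _ a := ∑ i, (a i i).re
  nonneg := by
    intro ι _ _ a ha
    have hp := pos_of ha
    refine Finset.sum_nonneg fun i _ => ?_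
    have := hp.diag_nonneg (i := i)
    exact (Complex.le_def.1 this).1
  trace := by
    intro ι κ _ _ _ _ x
    have h : (∑ i, (x * x.conjTranspose) i i) = ∑ i, (x.conjTranspose * x) i i :=
      Matrix.trace_mul_comm (CStarMatrix.ofMatrix.symm x) (CStarMatrix.ofMatrix.symm x).conjTranspose
    rw [← Complex.re_sum, ← Complex.re_sum, h]
  add := by
    intro ι _ _ a b _ _ _
    rw [← Finset.sum_add_distrib]
    rfl
  smul := by
    intro ι _ _ c a _ _
    rw [Finset.mul_sum]
    refine Finset.sum_congr rfl fun i _ => ?_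
    show (c • (a i i)).re = _
    simp
  one := by
    show (∑ i : Unit, ((1 : CStarMatrix Unit Unit ℂ) i i).re) = 1
    simp

end Pool.Agent.Helper14.RC3
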